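import Pool.Agent.BEL.StmtsC

/-!
# Squad BEL, row PTB: the variance bound (helper79)
-/

set_option autoImplicit false

namespace Pool.Agent.BEL.H79

open MeasureTheory Filter Topology Set
open scoped InnerProductSpace ENNReal
open Pool.Agent.BEL

noncomputable section

theorem coe_sum {X : Type} [MeasurableSpace X] {μ : Measure X} {κ : Type}
    (g : κ → Lp ℝ 2 μ) (c : κ → ℝ) (J : Finset κ) :
    (∑ j ∈ J, c j • g j : Lp ℝ 2 μ) =ᵐ[μ] fun x => ∑ j ∈ J, c j * g j x := by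
  classical
  induction J using Finset.induction_on with
  | empty =>
    filter_upwards [Lp.coeFn_zero ℝ 2 μ] with x hx
    simp only [Finset.sum_empty]
    exact hx
  | insert a s ha ih =>
    rw [Finset.sum_insert ha]
    filter_upwards [Lp.coeFn_add (c a • g a) (∑ j ∈ s, c j • g j), ih,
      Lp.coeFn_smul (c a) (g a)] with x h1 h2 h3
    rw [h1, Pi.add_apply, h2, h3, Finset.sum_insert ha]
    rfl

theorem ptb : PtbStmt := by
  intro X _ μ κ b J A B r u hA hA0 hB0 hu hB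
  have h1 : ∀ i, ∀ᵐ x ∂μ, u i x = ∑ j ∈ J, ⟪b j, u i⟫_ℝ * b j x := by
    intro i
    have h2 : PJ b J (u i) = ∑ j ∈ J, ⟪b j, u i⟫_ℝ • b j := by
      simp [PJ]
    have h3 : u i = ∑ j ∈ J, ⟪b j, u i⟫_ℝ • b j := by
      rw [← h2, hu i]
    have h4 := coe_sum (μ := μ) (fun j => b j) (fun j => ⟪b j, u i⟫_ℝ) J
    filter_upwards [h4] with x hx
    rw [← hx]
    exact congrArg (fun w : Lp ℝ 2 μ => w x) h3
  filter_upwards [hA, ae_all_iff.2 h1] with x hx hx1
  have hS : 0 ≤ ∑ i, (u i x) ^ 2 := Finset.sum_nonneg fun i _ => sq_nonneg _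
  have hin : ∀ j, ⟪b j, ∑ i, u i x • u i⟫_ℝ = ∑ i, u i x * ⟪b j, u i⟫_ℝ := by
    intro j
    rw [inner_sum]
    refine Finset.sum_congr rfl fun i _ => ?_
    rw [inner_smul_right]
  have h5 : ∑ i, (u i x) ^ 2 = ∑ j ∈ J, b j x * ⟪b j, ∑ i, u i x • u i⟫_ℝ := by
    have h6 : ∀ i, (u i x) ^ 2 = ∑ j ∈ J, b j x * (u i x * ⟪b j, u i⟫_ℝ) := by
      intro i
      rw [sq]
      nth_rewrite 2 [hx1 i]
      rw [Finset.mul_sum]
      refine Finset.sum_congr rfl fun j _ => ?_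
      ring
    rw [Finset.sum_congr rfl fun i _ => h6 i, Finset.sum_comm]
    refine Finset.sum_congr rfl fun j _ => ?_
    rw [hin, Finset.mul_sum]
  have h7 : (∑ i, (u i x) ^ 2) ^ 2 ≤ A * ‖∑ i, u i x • u i‖ ^ 2 := by
    rw [h5]
    refine (Finset.sum_mul_sq_le_sq_mul_sq J _ _).trans ?_
    refine mul_le_mul hx ?_ (Finset.sum_nonneg fun j _ => sq_nonneg _) hA0
    have h8 := b.orthonormal.sum_inner_products_le (∑ i, u i x • u i) (s := J)
    refine le_trans (le_of_eq ?_) h8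
    refine Finset.sum_congr rfl fun j _ => ?_
    rw [Real.norm_eq_abs, sq_abs]
  have h9 : (∑ i, (u i x) ^ 2) ^ 2 ≤ (A * B) * ∑ i, (u i x) ^ 2 := by
    refine h7.trans ?_
    rw [mul_assoc]
    exact mul_le_mul_of_nonneg_left (hB fun i => u i x) hA0
  by_contra hlt
  push Not at hlt
  have hpos : 0 < ∑ i, (u i x) ^ 2 := lt_of_le_of_lt (mul_nonneg hA0 hB0) hlt
  rw [sq] at h9
  exact absurd (le_of_mul_le_mul_right h9 hpos) (not_le.2 hlt)

end

end Pool.Agent.BEL.H79
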