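import Pool.Agent.BEL.StmtsQ

/-!
# Squad BEL, row UNC: uniqueness of the core solutions (helper79)
-/

set_option autoImplicit false

namespace Pool.Agent.BEL.H79

open MeasureTheory Filter Topology Set
open scoped InnerProductSpace ENNReal
open Pool.Agent.BEL

noncomputable section

theorem approx {H : Type} [NormedAddCommGroup H] [InnerProductSpace ℝ H] [CompleteSpace H]
    (b : HilbertBasis ℕ ℝ H) (V0 : KK H) (ε : ℝ) (hε : 0 < ε) : ∃ (J : Finset ℕ) (V : KK H),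
      (∀ j, j ∉ J → ⟪b j, P1 V⟫_ℝ = 0 ∧ ⟪b j, P2 V⟫_ℝ = 0) ∧ ‖V0 - V‖ ≤ ε := by
  classical
  have hs : ∀ x : H, ∃ s : Finset ℕ, ∀ t : Finset ℕ, s ⊆ t →
      ‖x - ∑ j ∈ t, b.repr x j • b j‖ < ε / 2 := by
    intro x
    have h1 := b.hasSum_repr x
    obtain ⟨s, hs⟩ := (Metric.tendsto_atTop.1 (show Tendsto _ atTop (𝓝 x) from h1)) (ε / 2)
      (half_pos hε)
    refine ⟨s, fun t ht => ?_⟩
    have h2 := hs t ht
    rw [dist_comm, dist_eq_norm] at h2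
    exact h2
  obtain ⟨s1, h1⟩ := hs (P1 V0)
  obtain ⟨s2, h2⟩ := hs (P2 V0)
  obtain ⟨u1, hu1⟩ : ∃ u, u = ∑ j ∈ s1 ∪ s2, b.repr (P1 V0) j • b j := ⟨_, rfl⟩
  obtain ⟨u2, hu2⟩ : ∃ u, u = ∑ j ∈ s1 ∪ s2, b.repr (P2 V0) j • b j := ⟨_, rfl⟩
  have hz : ∀ (c : ℕ → ℝ) (j : ℕ), j ∉ s1 ∪ s2 → ⟪b j, ∑ i ∈ s1 ∪ s2, c i • b i⟫_ℝ = 0 := by
    intro c j hj
    rw [inner_sum]
    refine Finset.sum_eq_zero fun i hi => ?_
    have hne : j ≠ i := by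
      rintro rfl
      exact hj hi
    rw [inner_smul_right, b.orthonormal.2 hne, mul_zero]
  refine ⟨s1 ∪ s2, WithLp.toLp 2 (u1, u2), ?_, ?_⟩
  · intro j hj
    constructor
    · change ⟪b j, u1⟫_ℝ = 0
      rw [hu1]
      exact hz _ j hj
    · change ⟪b j, u2⟫_ℝ = 0
      rw [hu2]
      exact hz _ j hj
  · have h3 : ‖V0 - WithLp.toLp 2 (u1, u2)‖ ^ 2 = ‖P1 V0 - u1‖ ^ 2 + ‖P2 V0 - u2‖ ^ 2 := by
      rw [WithLp.prod_norm_sq_eq_of_L2]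
      rfl
    have h4 := h1 (s1 ∪ s2) Finset.subset_union_left
    have h5 := h2 (s1 ∪ s2) Finset.subset_union_right
    rw [← hu1] at h4
    rw [← hu2] at h5
    have h6 : ‖P1 V0 - u1‖ ^ 2 ≤ (ε / 2) ^ 2 := by
      gcongr
    have h7 : ‖P2 V0 - u2‖ ^ 2 ≤ (ε / 2) ^ 2 := by
      gcongr
    have h8 : ‖V0 - WithLp.toLp 2 (u1, u2)‖ ^ 2 ≤ ε ^ 2 := by
      rw [h3]
      nlinarith [sq_nonneg ε]
    exact (sq_le_sq₀ (norm_nonneg _) hε.le).1 h8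

theorem unc (wsu : WsuStmt) (spr : SprStmt) : UncStmt := by
  intro X _ μ _ a al b om R W Js hcor hinp Z S hlim z1 z2 hsol t ht
  obtain ⟨-, hS, -, -, -⟩ := spr X μ ℕ a al b om W Z S hcor.a_pos hcor.al_pos hcor.grp hlim
  have h0 : ∀ ε : ℝ, 0 < ε →
      ‖WithLp.toLp 2 (z1 t, z2 t) - S t (WithLp.toLp 2 (z1 0, z2 0))‖ ≤ 2 * ε := by
    intro ε hε
    obtain ⟨J, V, hJ, hV⟩ := approx b (WithLp.toLp 2 (z1 0, z2 0) : KK (Lp ℝ 2 μ)) ε hε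
    have h1 := wsu X μ a al b om R W Js hcor hinp Z S hlim z1 z2 hsol J V hJ t ht
    have h2 := hS t ht V (WithLp.toLp 2 (z1 0, z2 0))
    rw [norm_sub_rev V] at h2
    calc ‖WithLp.toLp 2 (z1 t, z2 t) - S t (WithLp.toLp 2 (z1 0, z2 0))‖
        = ‖(WithLp.toLp 2 (z1 t, z2 t) - S t V) +
            (S t V - S t (WithLp.toLp 2 (z1 0, z2 0)))‖ := by
          congr 1
          abel
      _ ≤ ‖(WithLp.toLp 2 (z1 t, z2 t) - S t V : KK (Lp ℝ 2 μ))‖ +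
            ‖S t V - S t (WithLp.toLp 2 (z1 0, z2 0))‖ := norm_add_le _ _
      _ ≤ 2 * ε := by linarith
  have h1 : ‖WithLp.toLp 2 (z1 t, z2 t) - S t (WithLp.toLp 2 (z1 0, z2 0))‖ ≤ 0 := by
    refine le_of_forall_pos_le_add fun ε hε => ?_
    have h2 := h0 (ε / 2) (half_pos hε)
    linarith
  exact sub_eq_zero.1 (norm_le_zero_iff.1 h1)

end

end Pool.Agent.BEL.H79
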